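import Mathlib
import Pool.Agent.Helper43.RK.St

/-! Project RK, module RQ: passing to quotients by the centre of `G0`. -/

set_option autoImplicit false

namespace Pool.Agent.Helper70.RK

open Pool.Agent.Helper43.RK

variable {R : Type} [CommRing R] {G : Type} [Group G]

/-- the image of the data under a homomorphism -/
def mapD {H : Type} [Group H] (D : Dt R G) (f : G →* H) : Dt R H where
  y := D.y
  yb := D.yb
  bar := D.bar
  a r := f (D.a r)
  b r := f (D.b r)
  Y := f D.Y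
  Yb := f D.Yb
  w := f D.w
  two := D.two
  hy := D.hy
  bary := D.bary
  barb := D.barb
  gen := D.gen
  a_add r r' := by rw [D.a_add, map_mul]
  b_add r r' := by rw [D.b_add, map_mul]
  aY r := by rw [← map_inv, ← map_mul, ← map_mul, D.aY]
  bY r := by rw [← map_inv, ← map_mul, ← map_mul, D.bY]
  aYb r := by rw [← map_inv, ← map_mul, ← map_mul, D.aYb]
  bYb r := by rw [← map_inv, ← map_mul, ← map_mul, D.bYb]
  YYb := by rw [← map_mul, ← map_mul, D.YYb]
  cc := by simpa only [map_mul, map_one] using congrArg f D.cc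
  ac r := by simpa only [map_mul] using congrArg f (D.ac r)
  bc r := by simpa only [map_mul] using congrArg f (D.bc r)
  cY := by simpa only [map_mul] using congrArg f D.cY
  ww := by simpa only [map_mul, map_one] using congrArg f D.ww
  aw r := by simpa only [map_mul] using congrArg f (D.aw r)
  wY := by simpa only [map_mul, map_inv] using congrArg f D.wY

/-- restriction of the data to a subgroup which contains everything -/
def resD (D : Dt R G) (P : Subgroup G) (ha : ∀ r, D.a r ∈ P) (hb : ∀ r, D.b r ∈ P)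
    (hY : D.Y ∈ P) (hYb : D.Yb ∈ P) (hw : D.w ∈ P) : Dt R P where
  y := D.y
  yb := D.yb
  bar := D.bar
  a r := ⟨D.a r, ha r⟩
  b r := ⟨D.b r, hb r⟩
  Y := ⟨D.Y, hY⟩
  Yb := ⟨D.Yb, hYb⟩
  w := ⟨D.w, hw⟩
  two := D.two
  hy := D.hy
  bary := D.bary
  barb := D.barb
  gen := D.gen
  a_add r r' := Subtype.ext (D.a_add r r')
  b_add r r' := Subtype.ext (D.b_add r r')
  aY r := Subtype.ext (D.aY r)
  bY r := Subtype.ext (D.bY r)
  aYb r := Subtype.ext (D.aYb r)
  bYb r := Subtype.ext (D.bYb r)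
  YYb := Subtype.ext D.YYb
  cc := Subtype.ext D.cc
  ac r := Subtype.ext (D.ac r)
  bc r := Subtype.ext (D.bc r)
  cY := Subtype.ext D.cY
  ww := Subtype.ext D.ww
  aw r := Subtype.ext (D.aw r)
  wY := Subtype.ext D.wY

theorem aG (D : Dt R G) (r : R) : D.a r ∈ D.G0 :=
  Subgroup.subset_closure (Or.inl ⟨r, rfl⟩)

theorem bG (D : Dt R G) (r : R) : D.b r ∈ D.G0 :=
  Subgroup.subset_closure (Or.inr ⟨r, rfl⟩)

theorem conj_mem (D : Dt R G) (g : G) (h1 : ∀ r, g * D.a r * g⁻¹ ∈ D.G0)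
    (h2 : ∀ r, g * D.b r * g⁻¹ ∈ D.G0) : ∀ h ∈ D.G0, g * h * g⁻¹ ∈ D.G0 := by
  have : D.G0 ≤ D.G0.comap (MulAut.conj g).toMonoidHom := by
    unfold Dt.G0
    rw [Subgroup.closure_le]
    rintro x (⟨r, rfl⟩ | ⟨r, rfl⟩)
    · exact h1 r
    · exact h2 r
  intro h hh
  exact this hh

theorem mem_norm (D : Dt R G) (g : G) (h1 : ∀ r, g * D.a r * g⁻¹ ∈ D.G0)
    (h2 : ∀ r, g * D.b r * g⁻¹ ∈ D.G0) (h3 : ∀ r, g⁻¹ * D.a r * g ∈ D.G0)
    (h4 : ∀ r, g⁻¹ * D.b r * g ∈ D.G0) : g ∈ Subgroup.normalizer (D.G0 : Set G) := by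
  rw [Subgroup.mem_normalizer_iff]
  intro h
  constructor
  · exact conj_mem D g h1 h2 h
  · intro hh
    have h5 := conj_mem D g⁻¹ (fun r => by rw [inv_inv]; exact h3 r)
      (fun r => by rw [inv_inv]; exact h4 r) _ hh
    have e : g⁻¹ * (g * h * g⁻¹) * g⁻¹⁻¹ = h := by group
    rw [e] at h5
    exact h5

theorem memY (D : Dt R G) : D.Y ∈ Subgroup.normalizer (D.G0 : Set G) := by
  refine mem_norm D D.Y (fun r => ?_) (fun r => ?_) (fun r => ?_) (fun r => ?_)
  · rw [D.aYinv]; exact aG D _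
  · rw [D.bYinv]; exact bG D _
  · rw [D.aY]; exact aG D _
  · rw [D.bY]; exact bG D _

theorem memYb (D : Dt R G) : D.Yb ∈ Subgroup.normalizer (D.G0 : Set G) := by
  refine mem_norm D D.Yb (fun r => ?_) (fun r => ?_) (fun r => ?_) (fun r => ?_)
  · rw [D.aYbinv]; exact aG D _
  · rw [D.bYbinv]; exact bG D _
  · rw [D.aYb]; exact aG D _
  · rw [D.bYb]; exact bG D _

theorem memw (D : Dt R G) : D.w ∈ Subgroup.normalizer (D.G0 : Set G) := by
  refine mem_norm D D.w (fun r => ?_) (fun r => ?_) (fun r => ?_) (fun r => ?_)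
  · rw [D.winv, D.aw]; exact bG D _
  · rw [D.winv, D.bw]; exact aG D _
  · rw [D.winv, D.aw]; exact bG D _
  · rw [D.winv, D.bw]; exact aG D _

/-- an element commuting with the generators commutes with everything in `G0` -/
theorem cen_all (D : Dt R G) {g : G} (hg : D.Cen g) : ∀ h ∈ D.G0, g * h = h * g := by
  have : D.G0 ≤ Subgroup.centralizer {g} := by
    unfold Dt.G0
    rw [Subgroup.closure_le]
    rintro x (⟨r, rfl⟩ | ⟨r, rfl⟩)
    · exact Subgroup.mem_centralizer_singleton_iff.mpr (hg r).1.symm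
    · exact Subgroup.mem_centralizer_singleton_iff.mpr (hg r).2.symm
  intro h hh
  exact (Subgroup.mem_centralizer_singleton_iff.mp (this hh)).symm

/-- the central subgroup, as a subgroup of the normalizer of `G0` -/
def CC (D : Dt R G) : Subgroup (Subgroup.normalizer (D.G0 : Set G)) where
  carrier := {g | (g : G) ∈ D.G0 ∧ ∀ h ∈ D.G0, (g : G) * h = h * g}
  mul_mem' := by
    rintro x y ⟨hx, hx'⟩ ⟨hy, hy'⟩
    refine ⟨D.G0.mul_mem hx hy, fun h hh => ?_⟩
    rw [Subgroup.coe_mul, mul_assoc, hy' h hh, ← mul_assoc, hx' h hh, mul_assoc]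
  one_mem' := ⟨D.G0.one_mem, fun h _ => by simp⟩
  inv_mem' := by
    rintro x ⟨hx, hx'⟩
    refine ⟨D.G0.inv_mem hx, fun h hh => ?_⟩
    have e := hx' h hh
    rw [Subgroup.coe_inv]
    calc (x : G)⁻¹ * h = (x : G)⁻¹ * (h * x) * (x : G)⁻¹ := by group
      _ = (x : G)⁻¹ * (x * h) * (x : G)⁻¹ := by rw [e]
      _ = h * (x : G)⁻¹ := by group

instance CC_normal (D : Dt R G) : (CC D).Normal := by
  constructor
  rintro n ⟨hn, hn'⟩ g
  have hg := Subgroup.mem_normalizer_iff.mp g.2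
  refine ⟨(hg _).mp hn, fun h hh => ?_⟩
  have h2 : (g : G)⁻¹ * h * g ∈ D.G0 := by
    rw [hg]
    have e : (g : G) * ((g : G)⁻¹ * h * g) * (g : G)⁻¹ = h := by group
    have hh' : h ∈ D.G0 := hh
    rw [← e] at hh'
    exact hh'
  have e := hn' _ h2
  rw [Subgroup.coe_mul, Subgroup.coe_mul, Subgroup.coe_inv]
  calc (g : G) * n * (g : G)⁻¹ * h = g * (n * ((g : G)⁻¹ * h * g)) * (g : G)⁻¹ := by group
    _ = g * (((g : G)⁻¹ * h * g) * n) * (g : G)⁻¹ := by rw [e]
    _ = h * (g * n * (g : G)⁻¹) := by group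

theorem aP (D : Dt R G) (r : R) : D.a r ∈ Subgroup.normalizer (D.G0 : Set G) :=
  Subgroup.le_normalizer (aG D r)

theorem bP (D : Dt R G) (r : R) : D.b r ∈ Subgroup.normalizer (D.G0 : Set G) :=
  Subgroup.le_normalizer (bG D r)

/-- the data on the normalizer -/
def D1 (D : Dt R G) : Dt R (Subgroup.normalizer (D.G0 : Set G)) :=
  resD D _ (aP D) (bP D) (memY D) (memYb D) (memw D)

/-- the data on the quotient -/
def D2 (D : Dt R G) : Dt R ((Subgroup.normalizer (D.G0 : Set G)) ⧸ CC D) :=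
  mapD (D1 D) (QuotientGroup.mk' (CC D))

theorem zG (D : Dt R G) : D.z ∈ D.G0 :=
  D.G0.pow_mem (D.G0.mul_mem (aG D _) (bG D _)) 3

theorem delG (D : Dt R G) : D.del ∈ D.G0 := by
  unfold Dt.del
  exact D.G0.mul_mem
    (D.G0.mul_mem (D.G0.mul_mem (D.G0.mul_mem (aG D _) (bG D _)) (aG D _)) (bG D _))
    (D.G0.mul_mem (D.G0.mul_mem (D.G0.mul_mem (aG D _) (bG D _)) (aG D _)) (bG D _))

theorem z2 (D : Dt R G) : (D2 D).z = QuotientGroup.mk' (CC D) (D1 D).z := by
  unfold Dt.z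
  rw [map_pow, map_mul]
  rfl

theorem z1 (D : Dt R G) : (((D1 D).z : Subgroup.normalizer (D.G0 : Set G)) : G) = D.z := rfl

theorem del2 (D : Dt R G) : (D2 D).del = QuotientGroup.mk' (CC D) (D1 D).del := by
  unfold Dt.del
  simp only [map_mul]
  rfl

theorem del1 (D : Dt R G) : (((D1 D).del : Subgroup.normalizer (D.G0 : Set G)) : G) = D.del := rfl

/-- the homomorphism from `G0` to the quotient -/
def phi (D : Dt R G) : D.G0 →* (Subgroup.normalizer (D.G0 : Set G)) ⧸ CC D :=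
  (QuotientGroup.mk' (CC D)).comp (Subgroup.inclusion Subgroup.le_normalizer)

theorem phi_ker (D : Dt R G) : (phi D).ker ≤ Subgroup.center D.G0 := by
  intro g hg
  rw [MonoidHom.mem_ker] at hg
  have h1 : Subgroup.inclusion (Subgroup.le_normalizer (H := D.G0)) g ∈ CC D :=
    (QuotientGroup.eq_one_iff _).mp hg
  obtain ⟨_, h2⟩ := h1
  rw [Subgroup.mem_center_iff]
  intro h
  exact Subtype.ext (h2 h h.2).symm

theorem phi_range (D : Dt R G) : (phi D).range ≤ (D2 D).G0 := by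
  have h0 : Subgroup.closure (((↑) : D.G0 → G) ⁻¹' (Set.range D.a ∪ Set.range D.b)) = ⊤ :=
    Subgroup.closure_closure_coe_preimage
  rw [MonoidHom.range_eq_map, ← h0, MonoidHom.map_closure, Subgroup.closure_le]
  rintro x ⟨g, hg, rfl⟩
  rcases hg with ⟨r, hr⟩ | ⟨r, hr⟩
  · have e : g = ⟨D.a r, aG D r⟩ := Subtype.ext hr.symm
    rw [e]
    exact aG (D2 D) r
  · have e : g = ⟨D.b r, bG D r⟩ := Subtype.ext hr.symm
    rw [e]
    exact bG (D2 D) r

theorem fin_step (hRC : StRC) [Finite R] (D : Dt R G) (h : Finite (D2 D).G0) :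
    Finite D.G0 := by
  have hr : Finite (phi D).range :=
    Set.Finite.subset (s := ((D2 D).G0 : Set _)) (Set.toFinite _) (phi_range D)
  have hk : (phi D).ker.FiniteIndex := Subgroup.finiteIndex_ker (phi D)
  have hc : (Subgroup.center D.G0).FiniteIndex := Subgroup.finiteIndex_of_le (phi_ker D)
  have h0 : Subgroup.closure (((↑) : D.G0 → G) ⁻¹' (Set.range D.a ∪ Set.range D.b)) = ⊤ :=
    Subgroup.closure_closure_coe_preimage
  refine hRC D.G0 _ ?_ ?_ h0 hc
  · exact Set.Finite.preimage (Subtype.val_injective.injOn)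
      ((Set.finite_range D.a).union (Set.finite_range D.b))
  · intro s hs
    rcases hs with ⟨r, hr⟩ | ⟨r, hr⟩
    · apply Subtype.ext
      have := D.aa r
      rw [hr] at this
      exact this
    · apply Subtype.ext
      have := D.bb r
      rw [hr] at this
      exact this

theorem hRQ : StRQ := by
  intro hRC h1 h2 h3 R _ _ G _ D
  have hz : D.Cen D.z := (h1 R G D).2
  have hz2 : (D2 D).z = 1 := by
    rw [z2]
    exact (QuotientGroup.eq_one_iff _).mpr ⟨zG D, cen_all D hz⟩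
  have hd : (D2 D).Cen (D2 D).del := (h2 R _ (D2 D) hz2).2
  have hd3 : (D2 (D2 D)).del = 1 := by
    rw [del2]
    exact (QuotientGroup.eq_one_iff _).mpr ⟨delG (D2 D), cen_all (D2 D) hd⟩
  have hz3 : (D2 (D2 D)).z = 1 := by
    rw [z2]
    refine (QuotientGroup.eq_one_iff _).mpr ⟨zG (D2 D), ?_⟩
    intro h _
    rw [z1, hz2, one_mul, mul_one]
  exact fin_step hRC D (fin_step hRC (D2 D) (h3 R _ (D2 (D2 D)) hz3 hd3))

end Pool.Agent.Helper70.RK
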